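import Pool.Agent.Helper45.U4.St2

/-!
# Project U4, module GEO: geometry of the types
-/

set_option autoImplicit false

open Module Classical
open scoped LinearAlgebra.Projectivization

namespace Pool.Agent.Helper82.U4

open Pool.Agent.Helper45.U4 Pool.Agent.Helper53.PB

section
variable {F V : Type} [Field F] [AddCommGroup V] [Module F V] [Finite F] [Finite V]
  [FiniteDimensional F V] {φ : Form F V} {f : ℙ F V → ℤ} {t : ℕ} {X1 X2 : ℙ F V}

omit [Finite F] [FiniteDimensional F V] in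
private theorem two_le (hf : ∀ y, 0 ≤ f y) {U : Submodule F V} {p q : ℙ F V} (hpq : p ≠ q)
    (hp : 0 < f p) (hq : 0 < f q) (hpU : p.rep ∈ U) (hqU : q.rep ∈ U) : 2 ≤ tf f U := by
  have h : ∑ y ∈ ({p, q} : Finset (ℙ F V)), f y ≤ tf f U := by
    refine Finset.sum_le_sum_of_subset_of_nonneg ?_ (fun y _ _ => hf y)
    intro y hy
    rcases Finset.mem_insert.1 hy with rfl | hy
    · exact mem_pts.2 hpU
    · rw [Finset.mem_singleton] at hy
      rw [hy]
      exact mem_pts.2 hqU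
  rw [Finset.sum_pair hpq] at h
  omega

omit [Finite F] [FiniteDimensional F V] in
private theorem three_le (hf : ∀ y, 0 ≤ f y) {U : Submodule F V} {p q r : ℙ F V} (hpq : p ≠ q)
    (hpr : p ≠ r) (hqr : q ≠ r) (hp : 0 < f p) (hq : 0 < f q) (hr : 0 < f r)
    (hpU : p.rep ∈ U) (hqU : q.rep ∈ U) (hrU : r.rep ∈ U) : 3 ≤ tf f U := by
  have h : ∑ y ∈ ({p, q, r} : Finset (ℙ F V)), f y ≤ tf f U := by
    refine Finset.sum_le_sum_of_subset_of_nonneg ?_ (fun y _ _ => hf y)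
    intro y hy
    rcases Finset.mem_insert.1 hy with rfl | hy
    · exact mem_pts.2 hpU
    · rcases Finset.mem_insert.1 hy with rfl | hy
      · exact mem_pts.2 hqU
      · rw [Finset.mem_singleton] at hy
        rw [hy]
        exact mem_pts.2 hrU
  rw [Finset.sum_insert (by simp [hpq, hpr]), Finset.sum_pair hqr] at h
  omega

omit [Finite F] [Finite V] [FiniteDimensional F V] in
private theorem ts_line {P : Polar F V} {p q : ℙ F V} (hp : P.sing p.rep) (hq : P.sing q.rep)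
    (h : P.f p.rep q.rep = 0) : P.TS (line p q) := by
  refine (span_ts hp).sup_span hq ?_
  intro x hx
  refine Polar.perp_span ?_ hx
  intro y hy
  rw [Set.mem_singleton_iff] at hy
  rw [hy]
  exact h

omit [Finite F] [Finite V] in
private theorem swap_line {p q X : ℙ F V} (hpq : p ≠ q) (hX : X.rep ∈ line p q) (hXp : X ≠ p) :
    q.rep ∈ line X p := by
  have h1 : line p X = line p q := line_eq hpq hX hXp
  have h2 : line X p = line p X := sup_comm _ _
  rw [h2, h1]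
  exact right_mem_line _ _

omit [Finite F] [FiniteDimensional F V] in
private theorem sing_pos (D : Ty φ f t X1 X2) {p : ℙ F V} (hp : 0 < f p) :
    φ.toPolar.sing p.rep := by
  by_contra hc
  have := D.sup p hc
  omega

private theorem geo2 (h2 : StTHR) (D : Ty φ f t X1 X2) {p q : ℙ F V} (hpq : p ≠ q)
    (hp : 0 < f p) (hq : 0 < f q) (h : φ.f p.rep q.rep = 0) :
    (t ≠ 0 ∧ X1.rep ∈ line p q) ∨ (t = 2 ∧ X2.rep ∈ line p q) := by
  have hL : φ.toPolar.TS (line p q) := ts_line (sing_pos D hp) (sing_pos D hq) h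
  obtain ⟨⟨U0, U1, U2, T⟩, -⟩ := h2 φ 3 D.hs (line p q) hL (by rw [finrank_line hpq])
  have key : ∀ U, φ.toPolar.Gen U → line p q ≤ U →
      (t ≠ 0 ∧ X1.rep ∈ U) ∨ (t = 2 ∧ X2.rep ∈ U) := by
    intro U hU hLU
    have e1 := D.tf U hU
    have e2 := two_le D.nonneg hpq hp hq (hLU (left_mem_line _ _)) (hLU (right_mem_line _ _))
    by_contra hcon
    rw [not_or] at hcon
    rw [if_neg hcon.1, if_neg hcon.2] at e1
    omega
  have l0 : line p q ≤ U0 := by
    conv_lhs => rw [← T.i01]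
    exact inf_le_left
  have l1 : line p q ≤ U1 := by
    conv_lhs => rw [← T.i01]
    exact inf_le_right
  have l2 : line p q ≤ U2 := by
    conv_lhs => rw [← T.i02]
    exact inf_le_right
  have m01 : ∀ x, x ∈ U0 → x ∈ U1 → x ∈ line p q := by
    intro x a b
    rw [← T.i01]
    exact ⟨a, b⟩
  have m02 : ∀ x, x ∈ U0 → x ∈ U2 → x ∈ line p q := by
    intro x a b
    rw [← T.i02]
    exact ⟨a, b⟩
  have m12 : ∀ x, x ∈ U1 → x ∈ U2 → x ∈ line p q := by
    intro x a b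
    rw [← T.i12]
    exact ⟨a, b⟩
  rcases key U0 T.g0 l0 with ⟨a0, b0⟩ | ⟨a0, b0⟩
  · rcases key U1 T.g1 l1 with ⟨a1, b1⟩ | ⟨a1, b1⟩
    · exact Or.inl ⟨a0, m01 _ b0 b1⟩
    · rcases key U2 T.g2 l2 with ⟨a2, b2⟩ | ⟨a2, b2⟩
      · exact Or.inl ⟨a0, m02 _ b0 b2⟩
      · exact Or.inr ⟨a1, m12 _ b1 b2⟩
  · rcases key U1 T.g1 l1 with ⟨a1, b1⟩ | ⟨a1, b1⟩
    · rcases key U2 T.g2 l2 with ⟨a2, b2⟩ | ⟨a2, b2⟩
      · exact Or.inl ⟨a1, m12 _ b1 b2⟩
      · exact Or.inr ⟨a0, m02 _ b0 b2⟩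
    · exact Or.inr ⟨a0, m01 _ b0 b1⟩

omit [Finite V] in
private theorem cnt {U : Submodule F V} (N : Nb φ.toPolar U Bool) {p X : ℙ F V}
    (hpU : p.rep ∈ U) (hX : φ.toPolar.sing X.rep) (hXU : X.rep ∉ U) :
    ∑ w ∈ Finset.univ.filter (fun w => p.rep ∈ N.nb w), (if X.rep ∈ N.nb w then (1 : ℤ) else 0)
      = if φ.f X.rep p.rep = 0 then 1 else 0 := by
  obtain ⟨w0, hw0, huniq⟩ := N.out X.rep hX hXU
  have h1 : ∀ w, (if X.rep ∈ N.nb w then (1 : ℤ) else 0) = if w = w0 then 1 else 0 := by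
    intro w
    by_cases hw : w = w0
    · rw [if_pos hw, if_pos (by rw [hw]; exact hw0)]
    · rw [if_neg hw, if_neg (fun h => hw (huniq w h))]
  rw [Finset.sum_congr rfl (fun w _ => h1 w), Finset.sum_ite_eq']
  have h2 : p.rep ∈ N.nb w0 ↔ φ.f X.rep p.rep = 0 :=
    (N.inU w0 ⟨p.rep, hpU⟩).trans (N.perp w0 X.rep hw0 hXU ⟨p.rep, hpU⟩).symm
  simp only [Finset.mem_filter, Finset.mem_univ, true_and]
  by_cases h : φ.f X.rep p.rep = 0
  · rw [if_pos h, if_pos (h2.2 h)]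
  · rw [if_neg h, if_neg (fun h3 => h (h2.1 h3))]

private theorem nf_eq (h1 : StHNB) (h3 : StRTH) (h4 : StAVO) (D : Ty φ f t X1 X2) {p : ℙ F V}
    (hp : 0 < f p) :
    nf φ.toPolar f p + 8 * f p = 9 + (if t ≠ 0 ∧ φ.f X1.rep p.rep = 0 then 1 else 0) +
      (if t = 2 ∧ φ.f X2.rep p.rep = 0 then 1 else 0) := by
  have hX1 : X1 ≠ p := by
    rintro rfl
    have := D.z1
    omega
  obtain ⟨U, hU, hpU, hX1U, hX2U⟩ : ∃ U, φ.toPolar.Gen U ∧ p.rep ∈ U ∧ X1.rep ∉ U ∧
      (t = 2 → X2.rep ∉ U) := by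
    by_cases ht : t = 2
    · have hX2 : X2 ≠ p := by
        rintro rfl
        have := D.z2 ht
        omega
      obtain ⟨U, a, b, c, d⟩ := h4 φ D.hs p X1 X2 (sing_pos D hp) hX1 hX2
      exact ⟨U, a, b, c, fun _ => d⟩
    · obtain ⟨U, a, b, c, d⟩ := h4 φ D.hs p X1 X1 (sing_pos D hp) hX1 hX1
      exact ⟨U, a, b, c, fun h => absurd h ht⟩
  obtain ⟨N⟩ := h1 φ 3 D.hs U hU
  have hR := (((h3 φ f D.hs D.sup).1 U hU N).2 p hpU).1
  have hU1 := D.tf U hU
  rw [if_neg (fun h => hX1U h.2), if_neg (fun h => hX2U h.1 h.2)] at hU1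
  have hsum : ∑ w ∈ Finset.univ.filter (fun w => p.rep ∈ N.nb w), (tf f (N.nb w) - 1) =
      (if t ≠ 0 ∧ φ.f X1.rep p.rep = 0 then 1 else 0) +
      (if t = 2 ∧ φ.f X2.rep p.rep = 0 then 1 else 0) := by
    have e1 : ∀ w, tf f (N.nb w) - 1 =
        (if t ≠ 0 ∧ X1.rep ∈ N.nb w then 1 else 0) + (if t = 2 ∧ X2.rep ∈ N.nb w then 1 else 0) := by
      intro w
      rw [D.tf (N.nb w) (N.gen w)]
      ring
    rw [Finset.sum_congr rfl (fun w _ => e1 w), Finset.sum_add_distrib]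
    congr 1
    · by_cases ht : t = 0
      · simp [ht]
      · simp only [ne_eq, ht, not_false_eq_true, true_and]
        exact cnt N hpU D.s1 hX1U
    · by_cases ht : t = 2
      · simp only [ht, true_and]
        exact cnt N hpU D.s2 (hX2U ht)
      · simp [ht]
  rw [hsum] at hR
  unfold s3 at hR
  omega

omit [Finite F] [FiniteDimensional F V] in
private theorem le_nf (D : Ty φ f t X1 X2) {p : ℙ F V} (hp : 0 < f p) :
    f p ≤ nf φ.toPolar f p := by
  unfold nf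
  refine Finset.single_le_sum (fun y _ => D.nonneg y) ?_
  rw [Finset.mem_filter]
  exact ⟨Finset.mem_univ _, φ.toPolar.sing_self _ (sing_pos D hp)⟩

private theorem core (D : Ty φ f t X1 X2) {p X Y : ℙ F V} {c : Prop} (hp1 : f p = 1)
    (hN : 2 ≤ nf φ.toPolar f p) (hXp : X ≠ p) (hYp : c → Y ≠ p) (hY : φ.toPolar.sing Y.rep)
    (hA : ∀ q, q ≠ p → 0 < f q → φ.f p.rep q.rep = 0 → X.rep ∈ line p q ∨ (c ∧ Y.rep ∈ line p q))
    (hB : c → φ.f Y.rep p.rep = 0 → 3 ≤ nf φ.toPolar f p ∧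
      ∀ U, φ.toPolar.Gen U → Y.rep ∈ U → tf f U ≤ 2) :
    ∃ q, q ≠ p ∧ 0 < f q ∧ q.rep ∈ line X p := by
  by_contra hnone
  push Not at hnone
  have hp : 0 < f p := by omega
  have hsp := sing_pos D hp
  have hall : ∀ q, q ≠ p → 0 < f q → φ.f p.rep q.rep = 0 → c ∧ Y.rep ∈ line p q := by
    intro q hq hfq hpq
    rcases hA q hq hfq hpq with h | h
    · exact absurd (swap_line (Ne.symm hq) h hXp) (hnone q hq hfq)
    · exact h
  obtain ⟨q, hq, hfq, hpq⟩ : ∃ q, q ≠ p ∧ 0 < f q ∧ φ.f p.rep q.rep = 0 := by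
    by_contra hcon
    push Not at hcon
    have h1 : nf φ.toPolar f p = f p := by
      unfold nf
      refine Finset.sum_eq_single p ?_ ?_
      · intro y hy hyp
        have h2 : φ.f p.rep y.rep = 0 := φ.f_symm _ _ (Finset.mem_filter.1 hy).2
        by_contra h3
        have h4 := D.nonneg y
        exact hcon y hyp (lt_of_le_of_ne h4 (Ne.symm h3)) h2
      · intro h2
        rw [Finset.mem_filter] at h2
        exact absurd ⟨Finset.mem_univ _, φ.toPolar.sing_self _ hsp⟩ h2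
    omega
  obtain ⟨hc, hYq⟩ := hall q hq hfq hpq
  have hTS : φ.toPolar.TS (line p q) := ts_line hsp (sing_pos D hfq) hpq
  have hYp0 : φ.f Y.rep p.rep = 0 := hTS.2 _ hYq _ (left_mem_line _ _)
  obtain ⟨h3, h4⟩ := hB hc hYp0
  have hTS2 : φ.toPolar.TS (line Y p) := ts_line hY hsp hYp0
  obtain ⟨U, hU, hle⟩ := Polar.exists_gen_ge hTS2
  have h5 := h4 U hU (hle (left_mem_line _ _))
  have h6 : nf φ.toPolar f p ≤ tf f U := by
    unfold nf
    have h7 : ∑ y ∈ (Finset.univ.filter (fun y : ℙ F V => φ.toPolar.f y.rep p.rep = 0)) ∩ pts U,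
        f y = ∑ y ∈ Finset.univ.filter (fun y : ℙ F V => φ.toPolar.f y.rep p.rep = 0), f y := by
      refine Finset.sum_subset Finset.inter_subset_left ?_
      intro y hy hyn
      by_contra h8
      have h9 : 0 < f y := lt_of_le_of_ne (D.nonneg y) (Ne.symm h8)
      apply hyn
      rw [Finset.mem_inter, mem_pts]
      refine ⟨hy, ?_⟩
      by_cases hyp : y = p
      · rw [hyp]
        exact hle (right_mem_line _ _)
      · have h10 : φ.f p.rep y.rep = 0 := φ.f_symm _ _ (Finset.mem_filter.1 hy).2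
        exact hle (swap_line (Ne.symm hyp) (hall y hyp h9 h10).2 (hYp hc))
    rw [← h7]
    exact Finset.sum_le_sum_of_subset_of_nonneg Finset.inter_subset_right
      (fun y _ _ => D.nonneg y)
  omega

private theorem not_both (D : Ty φ f t X1 X2) {U : Submodule F V} (hU : φ.toPolar.Gen U)
    (h1 : X1.rep ∈ U) (h2 : X2.rep ∈ U) : False :=
  D.ne (hU.1.2 _ h1 _ h2)

private theorem tf_le1 (D : Ty φ f t X1 X2) {U : Submodule F V} (hU : φ.toPolar.Gen U)
    (h1 : X1.rep ∈ U) : tf f U ≤ 2 := by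
  rw [D.tf U hU, if_neg (fun h : t = 2 ∧ X2.rep ∈ U => not_both D hU h1 h.2)]
  split_ifs <;> norm_num

private theorem tf_le2 (D : Ty φ f t X1 X2) {U : Submodule F V} (hU : φ.toPolar.Gen U)
    (h2 : X2.rep ∈ U) : tf f U ≤ 2 := by
  rw [D.tf U hU, if_neg (fun h : t ≠ 0 ∧ X1.rep ∈ U => not_both D hU h.2 h2)]
  split_ifs <;> norm_num

private theorem geo3 (h1 : StHNB) (h2 : StTHR) (h3 : StRTH) (h4 : StAVO)
    (D : Ty φ f t X1 X2) {p : ℙ F V} (hp : 0 < f p) :
    (t ≠ 0 → φ.f X1.rep p.rep = 0 → ∃ q, q ≠ p ∧ 0 < f q ∧ q.rep ∈ line X1 p) ∧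
    (t = 2 → φ.f X2.rep p.rep = 0 → ∃ q, q ≠ p ∧ 0 < f q ∧ q.rep ∈ line X2 p) := by
  have hn := nf_eq h1 h3 h4 D hp
  have hle := le_nf D hp
  have hX1 : X1 ≠ p := by
    rintro rfl
    have := D.z1
    omega
  have hX2 : t = 2 → X2 ≠ p := by
    rintro ht rfl
    have := D.z2 ht
    omega
  have hi1 : (if t ≠ 0 ∧ φ.f X1.rep p.rep = 0 then (1 : ℤ) else 0) ≤ 1 := by
    split_ifs <;> norm_num
  have hi2 : (if t = 2 ∧ φ.f X2.rep p.rep = 0 then (1 : ℤ) else 0) ≤ 1 := by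
    split_ifs <;> norm_num
  have hj1 : (0 : ℤ) ≤ (if t ≠ 0 ∧ φ.f X1.rep p.rep = 0 then (1 : ℤ) else 0) := by
    split_ifs <;> norm_num
  have hj2 : (0 : ℤ) ≤ (if t = 2 ∧ φ.f X2.rep p.rep = 0 then (1 : ℤ) else 0) := by
    split_ifs <;> norm_num
  have hp1 : f p = 1 := by omega
  constructor
  · intro ht hpX
    have e1 : (if t ≠ 0 ∧ φ.f X1.rep p.rep = 0 then (1 : ℤ) else 0) = 1 := if_pos ⟨ht, hpX⟩
    refine core D (X := X1) (Y := X2) (c := t = 2) hp1 (by omega) hX1 hX2 D.s2 ?_ ?_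
    · intro q hq hfq hpq
      rcases geo2 h2 D (Ne.symm hq) hp hfq hpq with h | h
      · exact Or.inl h.2
      · exact Or.inr h
    · intro hc hY
      have e2 : (if t = 2 ∧ φ.f X2.rep p.rep = 0 then (1 : ℤ) else 0) = 1 := if_pos ⟨hc, hY⟩
      exact ⟨by omega, fun U hU h => tf_le2 D hU h⟩
  · intro ht hpX
    have e1 : (if t = 2 ∧ φ.f X2.rep p.rep = 0 then (1 : ℤ) else 0) = 1 := if_pos ⟨ht, hpX⟩
    refine core D (X := X2) (Y := X1) (c := t ≠ 0) hp1 (by omega) (hX2 ht) (fun _ => hX1) D.s1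
      ?_ ?_
    · intro q hq hfq hpq
      rcases geo2 h2 D (Ne.symm hq) hp hfq hpq with h | h
      · exact Or.inr h
      · exact Or.inl h.2
    · intro hc hY
      have e2 : (if t ≠ 0 ∧ φ.f X1.rep p.rep = 0 then (1 : ℤ) else 0) = 1 := if_pos ⟨hc, hY⟩
      exact ⟨by omega, fun U hU h => tf_le1 D hU h⟩

end

theorem hGEO (h1 : StHNB) (h2 : StTHR) (h3 : StRTH) (h4 : StAVO) : StGEO := by
  intro F V _ _ _ _ _ _ φ f t X1 X2 D
  refine ⟨?_, ?_, ?_, ?_⟩
  · intro U hU hr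
    have hG : φ.toPolar.Gen U := Polar.gen_of_finrank D.hs.gen hU hr
    have e1 : 1 ≤ tf f U := by
      rw [D.tf U hG]
      split_ifs <;> norm_num
    by_contra hcon
    push Not at hcon
    have e2 : tf f U ≤ 0 := by
      unfold tf
      refine Finset.sum_nonpos ?_
      intro y hy
      exact hcon y (mem_pts.1 hy)
    omega
  · intro p q hpq hp hq h
    exact geo2 h2 D hpq hp hq h
  · intro p hp
    exact geo3 h1 h2 h3 h4 D hp
  · intro p q r hpq hpr hqr hp hq hr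
    constructor
    · intro hX hqL hrL
      have hTS : φ.toPolar.TS (line X1 p) := ts_line D.s1 (sing_pos D hp) hX
      obtain ⟨U, hU, hle⟩ := Polar.exists_gen_ge hTS
      have e1 := tf_le1 D hU (hle (left_mem_line _ _))
      have e2 := three_le D.nonneg hpq hpr hqr hp hq hr (hle (right_mem_line _ _)) (hle hqL)
        (hle hrL)
      omega
    · intro ht hX hqL hrL
      have hTS : φ.toPolar.TS (line X2 p) := ts_line D.s2 (sing_pos D hp) hX
      obtain ⟨U, hU, hle⟩ := Polar.exists_gen_ge hTS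
      have e1 := tf_le2 D hU (hle (left_mem_line _ _))
      have e2 := three_le D.nonneg hpq hpr hqr hp hq hr (hle (right_mem_line _ _)) (hle hqL)
        (hle hrL)
      omega

end Pool.Agent.Helper82.U4
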